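import Pool.Agent.H53.MW.Targets

/-!
MP_c62aed_lc, permanent lines and work memory: row PRM. Every derived inequality has a small cover,
and the formula hits its kernel.
-/

set_option autoImplicit false

namespace Pool.Agent.H86.MW

open Finset
open Pool.Agent.H53.MW
open Pool.Agent.H53.MC (Clause Falsified SatBy Line Circuit U Viol toC scope Ins cnt H1 Covers InR
  Bad cf)
open Pool.Agent.H15.FLX (Scopes Signs clause cnf Few en idx FG BR)
open Pool.Agent.H97.SHL (DT bl)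

theorem es_mono {n M k : ℕ} (g : Fin M → Fin k → Fin n) (d s₀ θ : ℕ)
    (f : ℕ → (Fin n → Bool) → ℝ) {i j : ℕ} (hij : i ≤ j) :
    ES g d s₀ θ f i ⊆ ES g d s₀ θ f j := by
  induction hij with
  | refl => exact Subset.refl _
  | step _ ih =>
    refine Subset.trans ih ?_
    rw [ES]
    exact subset_union_left

theorem pf_PRM (hSES : T_SES) (hHTS : T_HTS) (hLKS : T_LKS) : T_PRM := by
  intro n M k m g w s₀ d t q s N hg hH hwn hn ht hr hs 𝓠 f 𝓕 h𝓕 F hF hReg i a hi hD
  set θ := th1 n w d s₀ s with hθ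
  have main := hD {p | p.1 < N →
    Lfc g F q (BR (ES g d s₀ θ f (p.1 + 1)) (f p.1) p.2) ∧
      ∀ p' ∈ KerS g d s₀ θ (BR (ES g d s₀ θ f p.1) (f p.1) p.2), Hit g F p'} ?_
  · exact main hi
  · intro i' a' hses hi'
    change i' < N at hi'
    change Lfc g F q (BR (ES g d s₀ θ f (i' + 1)) (f i') a') ∧
      ∀ p' ∈ KerS g d s₀ θ (BR (ES g d s₀ θ f i') (f i') a'), Hit g F p'
    have eB : (geL (f i') a')ᶜ \ ES g d s₀ θ f i' = BR (ES g d s₀ θ f i') (f i') a' := by
      ext x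
      rw [Finset.mem_sdiff, Finset.mem_compl, geL, BR, Finset.mem_filter, Finset.mem_filter]
      constructor
      · rintro ⟨h1, h2⟩
        refine ⟨Finset.mem_univ _, h2, ?_⟩
        by_contra h3
        exact h1 ⟨Finset.mem_univ _, not_lt.1 h3⟩
      · rintro ⟨-, h1, h2⟩
        exact ⟨fun h3 => absurd h3.2 (not_le.2 h2), h1⟩
    obtain ⟨S, hS, hDT⟩ := hSES g t q s hg ht hs F _ 𝓠 (ES g d s₀ θ f i') (geL (f i') a')
      (by
        rintro Q ⟨j, b, hj, hjb, rfl⟩
        have h1 : j < N := lt_trans hj hi'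
        obtain ⟨T, a1, a2, a3⟩ := (hjb h1).1
        refine ⟨T, a1, a2, fun x hx => a3 x ?_⟩
        rw [Finset.mem_sdiff, Finset.mem_compl, geL, Finset.mem_filter] at hx
        rw [BR, Finset.mem_filter]
        refine ⟨Finset.mem_univ _, fun h2 => hx.2 (es_mono g d s₀ θ f hj h2), ?_⟩
        by_contra h3
        exact hx.1 ⟨Finset.mem_univ _, not_lt.1 h3⟩) hses
    rw [eB] at hDT
    have hhit : ∀ p' ∈ KerS g d s₀ θ (BR (ES g d s₀ θ f i') (f i') a'), Hit g F p' :=
      hHTS g w s₀ d (t * t + t * t * q) s hg hH hwn hn hr (qp 𝓠 t) 𝓕 F hReg _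
        (h𝓕 i' hi' a') S hS hDT
    refine ⟨?_, hhit⟩
    have h2 := hLKS g d s₀ θ m q (KS g d s₀ θ f i') _ F (hF i' hi') ⟨a', rfl⟩ hhit
    obtain ⟨T, a1, a2, a3⟩ := h2
    refine ⟨T, a1, a2, fun x hx => a3 x ?_⟩
    rw [BR, Finset.mem_filter, ES, Finset.mem_union, not_or] at hx
    obtain ⟨-, ⟨hx1, hx2⟩, hx3⟩ := hx
    rw [Finset.mem_sdiff]
    constructor
    · rw [BR, Finset.mem_filter]
      exact ⟨Finset.mem_univ _, hx1, hx3⟩
    · intro hx4
      classical
      exact hx2 (Finset.mem_filter.2 ⟨Finset.mem_univ _, a', hx4⟩)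

end Pool.Agent.H86.MW
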