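import Pool.Agent.H53.MW.Targets
import Pool.Agent.H53.MC.PC

/-!
MP_c62aed_lc, permanent lines and work memory: row SES. A session is a decision tree.
-/

set_option autoImplicit false

namespace Pool.Agent.H86.MW

open Finset
open Pool.Agent.H53.MW
open Pool.Agent.H53.MC (Clause Falsified SatBy Line Circuit U Viol toC scope Ins cnt H1 Covers InR
  Bad cf pc_fals)
open Pool.Agent.H15.FLX (Scopes Signs clause cnf Few en idx FG BR)
open Pool.Agent.H97.SHL (DT bl)

theorem lfc_mono {n M k m : ℕ} (g : Fin M → Fin k → Fin n) (F : Fin m → U M k) {r : ℕ}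
    {R R' : Finset (Fin n → Bool)} (h : R' ⊆ R) (hR : Lfc g F r R) : Lfc g F r R' := by
  obtain ⟨T, h1, h2, h3⟩ := hR
  exact ⟨T, h1, h2, fun x hx => h3 x (h hx)⟩

/-- the points excluded in one step are covered by few clauses -/
theorem ses_follows {n M k m : ℕ} (g : Fin M → Fin k → Fin n) (t q : ℕ) (F : Fin m → U M k)
    (P : Line n → Prop) (E : Finset (Fin n → Bool)) (hP : ∀ Q, P Q → Lfc g F q (Qᶜ \ E))
    (W : Finset (Line n)) (L : Line n) (h : Follows (Set.range (cf g F)) P t W L) :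
    ∃ T : Finset (U M k), InR F T ∧ T.card ≤ t + t * q ∧
      ∀ x, (∀ Q ∈ W, x ∈ Q) → x ∉ L → x ∉ E → ∃ c ∈ T, Viol g c x := by
  classical
  obtain ⟨R, T, hR, hRP, hT, hTF, himp⟩ := h
  choose TQ hTQ1 hTQ2 hTQ3 using fun Q hQ => hP Q (hRP Q hQ)
  choose jc hjc using hTF
  let S1 : Finset (U M k) := R.attach.biUnion fun p => TQ p.1 p.2
  let S2 : Finset (U M k) := T.attach.image fun c => F (jc c.1 c.2)
  have hR1 : InR F (S2 ∪ S1) := by
    intro c hc
    rcases Finset.mem_union.1 hc with h | h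
    · obtain ⟨b, -, hb⟩ := Finset.mem_image.1 h
      exact ⟨_, hb⟩
    · obtain ⟨p, -, hp⟩ := Finset.mem_biUnion.1 h
      exact hTQ1 p.1 p.2 c hp
  refine ⟨S2 ∪ S1, hR1, ?_, ?_⟩
  · have hc1 : S1.card ≤ t * q := by
      have h1 := Finset.card_biUnion_le_card_mul R.attach (fun p => TQ p.1 p.2) q
        (fun p _ => hTQ2 p.1 p.2)
      rw [Finset.card_attach] at h1
      exact h1.trans (Nat.mul_le_mul_right q hR)
    have hc2 : S2.card ≤ t := by
      have h1 := Finset.card_image_le (s := T.attach) (f := fun c => F (jc c.1 c.2))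
      rw [Finset.card_attach] at h1
      exact h1.trans hT
    have h1 := Finset.card_union_le S2 S1
    omega
  · intro x hxW hxL hxE
    have h1 : ¬ ((∀ Q ∈ R, x ∈ Q) ∧ ∀ c ∈ T, ¬ Falsified c x) := fun h =>
      hxL (himp x hxW h.1 h.2)
    rw [not_and_or] at h1
    rcases h1 with h1 | h1
    · push Not at h1
      obtain ⟨Q, hQ, hxQ⟩ := h1
      obtain ⟨c, hc, hv⟩ := hTQ3 Q hQ x (by
        rw [Finset.mem_sdiff, Finset.mem_compl]
        exact ⟨hxQ, hxE⟩)
      exact ⟨c, Finset.mem_union_right _ (Finset.mem_biUnion.2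
        ⟨⟨Q, hQ⟩, Finset.mem_attach _ _, hc⟩), hv⟩
    · push Not at h1
      obtain ⟨c, hc, hf⟩ := h1
      refine ⟨F (jc c hc), Finset.mem_union_left _ (Finset.mem_image.2
        ⟨⟨c, hc⟩, Finset.mem_attach _ _, rfl⟩), pc_fals g _ x ?_⟩
      have h2 : toC g (F (jc c hc)) = c := hjc c hc
      rw [h2]
      exact hf

theorem pf_SES (_hTOC : Pool.Agent.H53.MC.T_TOC) (hSEQ : Pool.Agent.H97.SHL.T_SEQ)
    (hDTR : T_DTR) : T_SES := by
  intro n M k m g t q s _hg ht hs F P 𝓠 E L hP hses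
  obtain ⟨i, W, his, hW0, hF, hstep⟩ := hses
  obtain ⟨Mj, hMj⟩ : ∃ Mj : ℕ → Finset (Fin n → Bool), ∀ j x, x ∈ Mj j ↔
      (j ≤ i ∧ ∀ L' ∈ W j, x ∈ L') := by
    classical
    exact ⟨fun j => univ.filter fun x => j ≤ i ∧ ∀ L' ∈ W j, x ∈ L', fun j x => by simp⟩
  obtain ⟨r, hr⟩ : ∃ r : ℕ, r = t * t + t * t * q := ⟨_, rfl⟩
  rw [← hr]
  obtain ⟨Lf0, hLf0⟩ : ∃ Lf0 : Finset (Fin n → Bool) → Prop,
    Lf0 = fun R => Lfc g F r (R ∩ (Lᶜ \ E)) := ⟨_, rfl⟩
  have hdown : ∀ Q Q', Lf0 Q → Q' ⊆ Q → Lf0 Q' := by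
    intro Q Q' h1 h2
    rw [hLf0] at h1 ⊢
    exact lfc_mono g F (Finset.inter_subset_inter h2 (Finset.Subset.refl _)) h1
  have key := hSEQ (Fin n → Bool) (qp 𝓠 t) Lf0 hdown (i + 1) n Mj
    (by
      intro j hj0 hj1
      obtain ⟨j', rfl⟩ : ∃ j', j = j' + 1 := ⟨j - 1, by omega⟩
      obtain ⟨h1, h2, -⟩ := hstep j' (by omega)
      unfold qp
      rw [Finset.mem_image]
      refine ⟨W (j' + 1), ?_, ?_⟩
      · rw [Finset.mem_filter, Finset.mem_powerset]
        exact ⟨h1, h2⟩
      · congr 1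
        ext x
        rw [hMj, Finset.mem_filter]
        constructor
        · intro h
          exact ⟨by omega, h.2⟩
        · intro h
          exact ⟨Finset.mem_univ _, h.2⟩)
    (by
      intro j hj
      rw [hLf0]
      rcases Nat.lt_or_ge j i with hji | hji
      · obtain ⟨h1, h2, h3⟩ := hstep j hji
        classical
        have hall : ∀ Q : Line n, ∃ T : Finset (U M k), InR F T ∧ T.card ≤ t + t * q ∧
            (Q ∈ W (j + 1) → ∀ x, (∀ Q ∈ W j, x ∈ Q) → x ∉ Q → x ∉ E → ∃ c ∈ T, Viol g c x) := by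
          intro Q
          by_cases hQ : Q ∈ W (j + 1)
          · rcases h3 Q hQ with h4 | h4
            · refine ⟨∅, fun c hc => absurd hc (Finset.notMem_empty _), by simp, ?_⟩
              intro _ x hx hxQ
              exact absurd (hx Q h4) hxQ
            · obtain ⟨T, a1, a2, a3⟩ := ses_follows g t q F P E hP (W j) Q h4
              exact ⟨T, a1, a2, fun _ => a3⟩
          · exact ⟨∅, fun c hc => absurd hc (Finset.notMem_empty _), by simp,
              fun h => absurd h hQ⟩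
        choose TQ b1 b2 b3 using hall
        refine ⟨(W (j + 1)).biUnion TQ, ?_, ?_, ?_⟩
        · intro c hc
          obtain ⟨Q, -, hQ⟩ := Finset.mem_biUnion.1 hc
          exact b1 Q c hQ
        · have h5 := Finset.card_biUnion_le_card_mul (W (j + 1)) TQ (t + t * q)
            (fun Q _ => b2 Q)
          have h6 := Nat.mul_le_mul_right (t + t * q) h2
          rw [hr]
          calc _ ≤ t * (t + t * q) := h5.trans h6
            _ = t * t + t * t * q := by ring
        · intro x hx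
          rw [Finset.mem_inter, Finset.mem_sdiff, Finset.mem_sdiff, Finset.mem_compl, hMj,
            hMj] at hx
          obtain ⟨⟨⟨-, hx1⟩, hx2⟩, hx3, hx4⟩ := hx
          rw [not_and] at hx2
          have hx5 := hx2 (by omega)
          push Not at hx5
          obtain ⟨Q, hQ, hxQ⟩ := hx5
          obtain ⟨c, hc, hv⟩ := b3 Q hQ x hx1 hxQ hx4
          exact ⟨c, Finset.mem_biUnion.2 ⟨Q, hQ, hc⟩, hv⟩
      · obtain ⟨T, a1, a2, a3⟩ := ses_follows g t q F P E hP (W i) L hF
        refine ⟨T, a1, ?_, ?_⟩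
        · have h5 : t + t * q ≤ t * (t + t * q) := Nat.le_mul_of_pos_left _ ht
          rw [hr]
          calc _ ≤ t * (t + t * q) := a2.trans h5
            _ = t * t + t * t * q := by ring
        · intro x hx
          rw [Finset.mem_inter, Finset.mem_sdiff, Finset.mem_sdiff, Finset.mem_compl, hMj,
            hMj] at hx
          obtain ⟨⟨⟨-, hx1⟩, hx2⟩, hx3, hx4⟩ := hx
          have hj' : j = i := by omega
          rw [hj'] at hx1
          exact a3 x hx1 hx3 hx4)
    (by omega) (by omega)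
  have e : Mj 0 \ Mj (i + 1) = univ := by
    ext x
    rw [Finset.mem_sdiff, hMj, hMj, hW0]
    simp
  rw [e] at key
  have h2 := (hDTR (Fin n → Bool) (qp 𝓠 t) Lf0 hdown univ n (i + 1) key).2 (Lᶜ \ E)
    (Lfc g F r) (fun R hR => by
      rw [hLf0] at hR
      exact hR)
  rw [Finset.univ_inter] at h2
  exact ⟨i + 1, by omega, h2⟩

end Pool.Agent.H86.MW
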